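import Pool.Agent.N437.SPC.Stm2

/-!
# SPC/LOW (helper437): subsets of arithmetic and geometric progressions
-/

set_option autoImplicit false

namespace Pool.Agent.N966.SPC.Low

open Finset
open scoped Pointwise

lemma choose_low {L n : ℕ} (hn : 1 ≤ n) (hL : n ≤ L) :
    ((L : ℝ) / n) ^ n ≤ (L.choose n : ℝ) := by
  have h1 : L ^ n * n.factorial ≤ n ^ n * L.descFactorial n := by
    rw [← Nat.descFactorial_self, Nat.descFactorial_eq_prod_range, Nat.descFactorial_eq_prod_range]
    calc L ^ n * ∏ i ∈ range n, (n - i) = ∏ i ∈ range n, (L * (n - i)) := by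
          rw [prod_mul_distrib, prod_const, card_range]
      _ ≤ ∏ i ∈ range n, (n * (L - i)) := by
          refine prod_le_prod' fun i hi => ?_
          rw [Nat.mul_sub, Nat.mul_sub, Nat.mul_comm L n]
          exact Nat.sub_le_sub_left (Nat.mul_le_mul_right _ hL) _
      _ = n ^ n * ∏ i ∈ range n, (L - i) := by
          rw [prod_mul_distrib, prod_const, card_range]
  rw [Nat.descFactorial_eq_factorial_mul_choose] at h1
  have h2 : L ^ n ≤ n ^ n * L.choose n := by
    refine Nat.le_of_mul_le_mul_left ?_ (Nat.factorial_pos n)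
    calc n.factorial * L ^ n = L ^ n * n.factorial := mul_comm _ _
      _ ≤ n ^ n * (n.factorial * L.choose n) := h1
      _ = _ := by ring
  have hn0 : (0 : ℝ) < (n : ℝ) ^ n := by positivity
  rw [div_pow, div_le_iff₀ hn0, mul_comm]
  exact_mod_cast h2

lemma low (X : Finset ℤ) (n m : ℕ) (hn : 1 ≤ n) (hm : 2 * n ≤ m + 1) (op : ℤ → ℤ → ℤ)
    (φ ψ : ℕ → ℤ) (hφ : Function.Injective φ) (hop : ∀ i j, op (φ i) (φ j) = ψ (i + j))
    (hX : ∀ i : ℕ, 2 * i < m → φ i ∈ X) :
    ((m : ℝ) / (2 * n)) ^ n ≤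
      ({A : Finset ℤ | A ⊆ X ∧ A.card = n ∧ (image₂ op A A).card ≤ m}.ncard : ℝ) := by
  obtain ⟨L, hL⟩ : ∃ L, L = (m + 1) / 2 := ⟨_, rfl⟩
  have hnL : n ≤ L := by omega
  have hfin : {A : Finset ℤ | A ⊆ X ∧ A.card = n ∧ (image₂ op A A).card ≤ m}.Finite :=
    (Finset.finite_toSet X.powerset).subset fun A hA => by
      rw [mem_coe, mem_powerset]
      exact hA.1
  set P := (range L).image φ with hP
  have hPc : P.card = L := by rw [hP, card_image_of_injective _ hφ, card_range]
  have hsub : ((P.powersetCard n : Finset (Finset ℤ)) : Set (Finset ℤ)) ⊆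
      {A : Finset ℤ | A ⊆ X ∧ A.card = n ∧ (image₂ op A A).card ≤ m} := by
    intro A hA
    rw [mem_coe, mem_powersetCard] at hA
    refine ⟨?_, hA.2, ?_⟩
    · intro x hx
      obtain ⟨i, hi, rfl⟩ := mem_image.1 (hA.1 hx)
      rw [mem_range] at hi
      exact hX i (by omega)
    · have h1 : image₂ op A A ⊆ (range (2 * L - 1)).image ψ := by
        intro x hx
        obtain ⟨a, ha, b, hb, rfl⟩ := mem_image₂.1 hx
        obtain ⟨i, hi, rfl⟩ := mem_image.1 (hA.1 ha)
        obtain ⟨j, hj, rfl⟩ := mem_image.1 (hA.1 hb)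
        rw [mem_range] at hi hj
        rw [hop]
        exact mem_image_of_mem _ (mem_range.2 (by omega))
      refine (card_le_card h1).trans (card_image_le.trans ?_)
      rw [card_range]
      omega
  have h2 := Set.ncard_le_ncard hsub hfin
  rw [Set.ncard_coe_finset, card_powersetCard, hPc] at h2
  have h3 : (m : ℝ) / (2 * n) ≤ (L : ℝ) / n := by
    have hn0 : (0 : ℝ) < n := by exact_mod_cast hn
    rw [div_le_div_iff₀ (by positivity) hn0]
    have h4 : (m : ℝ) ≤ 2 * L := by exact_mod_cast (by omega : m ≤ 2 * L)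
    nlinarith
  calc ((m : ℝ) / (2 * n)) ^ n ≤ ((L : ℝ) / n) ^ n := pow_le_pow_left₀ (by positivity) h3 _
    _ ≤ (L.choose n : ℝ) := choose_low hn hnL
    _ ≤ _ := by exact_mod_cast h2

theorem t_LOW : Pool.Agent.N437.SPC.S_LOW := by
  intro X n m hn hm
  refine ⟨?_, ?_⟩
  · rintro ⟨a, d, hd, hX⟩
    exact low X n m hn hm (fun a b => a + b) (fun i => a + d * i) (fun j => 2 * a + d * j)
      (fun i j hij => by
        have h1 : d * (i : ℤ) = d * j := add_left_cancel hij
        exact_mod_cast mul_left_cancel₀ hd h1)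
      (fun i j => by
        push_cast
        ring) hX
  · rintro ⟨a, d, ha, hd, hX⟩
    exact low X n m hn hm (fun a b => a * b) (fun i => a * d ^ i) (fun j => a ^ 2 * d ^ j)
      (fun i j hij => by
        have h1 : d ^ i = d ^ j := mul_left_cancel₀ ha hij
        exact Int.pow_right_injective (by omega) h1)
      (fun i j => by
        rw [pow_add]
        ring) hX

end Pool.Agent.N966.SPC.Low

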