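import Pool.Agent.N437.SPC.Stm2

/-!
# SPC/MAIN3 (helper437): proportions
-/

set_option autoImplicit false

namespace Pool.Agent.N966.SPC.Main3

open Finset
open scoped Pointwise
open Pool.Agent.N437.SPC

lemma fin_step {n m : ℕ} {c : ℝ} (hn : 1 ≤ n) (h2 : 2 ≤ (n : ℝ) ^ c) (T S : ℕ)
    (hT : (T : ℝ) ≤ ((m : ℝ) / (n : ℝ) ^ (1 + 2 * c)) ^ n)
    (hS : 2 * n ≤ m + 1 → ((m : ℝ) / (2 * n)) ^ n ≤ S) :
    (T : ℝ) ≤ (n : ℝ) ^ (-(c * n)) * S := by
  have hn0 : (0 : ℝ) < n := by exact_mod_cast hn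
  obtain ⟨y, hy⟩ : ∃ y : ℝ, y = (n : ℝ) ^ c := ⟨_, rfl⟩
  rw [← hy] at h2
  have hy0 : 0 < y := by linarith
  have e1 : (n : ℝ) ^ (1 + 2 * c) = n * (y * y) := by
    rw [Real.rpow_add hn0, Real.rpow_one, two_mul, Real.rpow_add hn0, hy]
  have e2 : (n : ℝ) ^ (-(c * n)) = (1 / y) ^ n := by
    rw [Real.rpow_neg hn0.le, Real.rpow_mul hn0.le, Real.rpow_natCast, ← hy, one_div, inv_pow]
  rw [e1] at hT
  rw [e2]
  rcases le_or_gt (2 * n) (m + 1) with h | h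
  · have h3 := hS h
    calc (T : ℝ) ≤ ((m : ℝ) / (n * (y * y))) ^ n := hT
      _ = ((2 / y) * (1 / y)) ^ n * ((m : ℝ) / (2 * n)) ^ n := by
          rw [← mul_pow]
          congr 1
          field_simp
      _ ≤ (1 / y) ^ n * S := by
          refine mul_le_mul ?_ h3 (by positivity) (by positivity)
          refine pow_le_pow_left₀ (by positivity) ?_ _
          refine mul_le_of_le_one_left (by positivity) ?_
          rw [div_le_one hy0]
          exact h2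
  · have h3 : (m : ℝ) / (n * (y * y)) < 1 := by
      rw [div_lt_one (by positivity)]
      have h4 : (m : ℝ) < 2 * n := by exact_mod_cast (by omega : m < 2 * n)
      have h5 : (4 : ℝ) ≤ y * y := by nlinarith
      nlinarith
    have h6 : ((m : ℝ) / (n * (y * y))) ^ n < 1 :=
      pow_lt_one₀ (by positivity) h3 (by omega)
    have h7 : T = 0 := by
      have : (T : ℝ) < 1 := lt_of_le_of_lt hT h6
      have : T < 1 := by exact_mod_cast this
      omega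
    rw [h7, Nat.cast_zero]
    positivity

theorem t_MAIN3 (h1 : Pool.Agent.N437.SPC.S_MAIN2) (h2 : Pool.Agent.N437.SPC.S_LOW) :
    Pool.Agent.N437.SPC.S_MAIN3 := by
  intro k ε δ hk hε hδ
  obtain ⟨c₁, hc₁, n₁, hmain⟩ := h1 k ε δ hk hε hδ
  obtain ⟨c, hc⟩ : ∃ c : ℝ, c = c₁ / 2 := ⟨_, rfl⟩
  have hc0 : 0 < c := by rw [hc]; positivity
  have hcc : c ≤ c₁ := by rw [hc]; linarith
  have e0 : 1 + c₁ = 1 + 2 * c := by rw [hc]; ring
  have hev : ∀ᶠ n : ℕ in Filter.atTop, (2 : ℝ) ≤ (n : ℝ) ^ c :=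
    ((tendsto_rpow_atTop hc0).comp tendsto_natCast_atTop_atTop).eventually_ge_atTop 2
  obtain ⟨n₂, hn₂⟩ := Filter.eventually_atTop.1 hev
  refine ⟨c, hc0, max (max n₁ n₂) 1, ?_⟩
  intro n X m hn hX hm
  have hn1 : 1 ≤ n := (le_max_right _ _).trans hn
  have hnn1 : n₁ ≤ n := ((le_max_left _ _).trans (le_max_left _ _)).trans hn
  have hnn2 : n₂ ≤ n := ((le_max_right _ _).trans (le_max_left _ _)).trans hn
  have hnR : (1 : ℝ) ≤ n := by exact_mod_cast hn1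
  have hX1 : Real.log X.card ≤ (n : ℝ) ^ c₁ :=
    hX.trans (Real.rpow_le_rpow_of_exponent_le hnR hcc)
  obtain ⟨m1, m2⟩ := hmain n X m hnn1 hX1 hm
  rw [e0] at m1 m2
  have hpow : (n : ℝ) ^ (1 - c₁) ≤ (n : ℝ) ^ (1 - c) :=
    Real.rpow_le_rpow_of_exponent_le hnR (by linarith)
  have hBP : ∀ A : Finset ℤ, BadProd k n c ε A → BadProd k n c₁ ε A := by
    rintro A ⟨B, hB, h3⟩
    exact ⟨B, fun i => ⟨(hB i).1, hpow.trans (hB i).2⟩, h3⟩
  have hBS : ∀ A : Finset ℤ, BadSum k n c ε A → BadSum k n c₁ ε A := by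
    rintro A ⟨B, hB, l, hl, h3⟩
    exact ⟨B, fun i => ⟨(hB i).1, hpow.trans (hB i).2⟩, l, hl, h3⟩
  have hfin : ∀ p : Finset ℤ → Prop, {A : Finset ℤ | A ⊆ X ∧ p A}.Finite := fun p =>
    (Finset.finite_toSet X.powerset).subset fun A hA => by
      rw [mem_coe, mem_powerset]
      exact hA.1
  refine ⟨fun hprog => ?_, fun hprog => ?_⟩
  · refine fin_step hn1 (hn₂ n hnn2) _ _ (le_trans ?_ m1) fun h => (h2 X n m hn1 h).1 hprog
    have g : {A : Finset ℤ | A ⊆ X ∧ A.card = n ∧ (A + A).card ≤ m ∧ BadProd k n c ε A} ⊆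
        {A : Finset ℤ | A ⊆ X ∧ A.card = n ∧ (A + A).card ≤ m ∧ BadProd k n c₁ ε A} :=
      fun A hA => ⟨hA.1, hA.2.1, hA.2.2.1, hBP A hA.2.2.2⟩
    exact_mod_cast Set.ncard_le_ncard g (hfin _)
  · refine fin_step hn1 (hn₂ n hnn2) _ _ (le_trans ?_ m2) fun h => (h2 X n m hn1 h).2 hprog
    have g : {A : Finset ℤ | A ⊆ X ∧ A.card = n ∧ (A * A).card ≤ m ∧ BadSum k n c ε A} ⊆
        {A : Finset ℤ | A ⊆ X ∧ A.card = n ∧ (A * A).card ≤ m ∧ BadSum k n c₁ ε A} :=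
      fun A hA => ⟨hA.1, hA.2.1, hA.2.2.1, hBS A hA.2.2.2⟩
    exact_mod_cast Set.ncard_le_ncard g (hfin _)

end Pool.Agent.N966.SPC.Main3

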