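import Pool.Agent.N437.SPC.Stm2
import Pool.Agent.H633R5.FS.Fin

/-!
# SPC/PROD (helper437): few sums, many products of subsets
-/

set_option autoImplicit false

namespace Pool.Agent.N966.SPC.Prod

open Finset
open scoped Pointwise

lemma ev_log (r : ℝ) (hr : 0 < r) :
    ∀ᶠ n : ℕ in Filter.atTop, 3 + 3 * Real.log n ≤ (n : ℝ) ^ r := by
  have h1 := (isLittleO_log_rpow_atTop hr).comp_tendsto tendsto_natCast_atTop_atTop
  have h2 := h1.bound (show (0 : ℝ) < 1 / 6 by norm_num)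
  filter_upwards [h2, Filter.eventually_ge_atTop 3] with n hn hn3
  have hn3R : (3 : ℝ) ≤ n := by exact_mod_cast hn3
  simp only [Function.comp, Real.norm_eq_abs] at hn
  have h3 : 1 ≤ Real.log n := by
    rw [Real.le_log_iff_exp_le (by linarith)]
    linarith [Real.exp_one_lt_d9]
  rw [abs_of_nonneg (by linarith : (0 : ℝ) ≤ Real.log n),
    abs_of_nonneg (Real.rpow_nonneg (by linarith : (0 : ℝ) ≤ n) _)] at hn
  linarith

theorem t_PROD : Pool.Agent.N437.SPC.S_PROD := by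
  intro k ε hk hε
  have hkR : (0 : ℝ) < k := by exact_mod_cast hk
  obtain ⟨C, hC, h⟩ := H633R5.FS.tuple k hk (ε / (12 * k)) (by positivity)
  set δ : ℝ := ε / (12 * k) with hδ
  have hδ0 : 0 < δ := by positivity
  obtain ⟨e, he⟩ : ∃ e : ℝ, e = min 1 δ := ⟨_, rfl⟩
  have he0 : 0 < e := by rw [he]; exact lt_min one_pos hδ0
  have he1 : e ≤ 1 := by rw [he]; exact min_le_left _ _
  have heδ : e ≤ δ := by rw [he]; exact min_le_right _ _
  have hδk : 3 * δ * k = ε / 4 := by rw [hδ]; field_simp; norm_num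
  have hek : 3 * e * k ≤ ε / 4 := by
    rw [← hδk]
    gcongr
  obtain ⟨E, hE⟩ : ∃ E : ℝ, E = Real.exp (C / e) := ⟨_, rfl⟩
  have hE0 : 0 < E := by rw [hE]; exact Real.exp_pos _
  have h2 := h e he0 he1
  rw [← hE] at h2
  obtain ⟨r, hr⟩ : ∃ r : ℝ, r = ε / (4 * k * E) := ⟨_, rfl⟩
  have hr0 : 0 < r := by rw [hr]; positivity
  have hrk : r * E * k = ε / 4 := by rw [hr]; field_simp
  obtain ⟨n₀, hn₀⟩ := Filter.eventually_atTop.1 (ev_log r hr0)
  refine ⟨r, hr0, max n₀ 1, ?_⟩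
  intro n G hn hG hGG B hB
  have hn1 : 1 ≤ n := (le_max_right _ _).trans hn
  have hnR : (1 : ℝ) ≤ n := by exact_mod_cast hn1
  have hn0 : (0 : ℝ) < n := by linarith
  have hlog := hn₀ n ((le_max_left _ _).trans hn)
  have hlogn : 0 ≤ Real.log n := Real.log_nonneg hnR
  have hBc : ∀ i, 1 < (B i).card := fun i => by have := (hB i).2; omega
  have hGne : G.Nonempty := by
    obtain ⟨a, ha⟩ := Finset.card_pos.1 (by have := hBc ⟨0, hk⟩; omega : 0 < (B ⟨0, hk⟩).card)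
    exact ⟨a, (hB _).1 ha⟩
  have hG0 : (0 : ℝ) < G.card := by exact_mod_cast Finset.card_pos.2 hGne
  have hG1 : (1 : ℝ) ≤ G.card := by exact_mod_cast Finset.card_pos.2 hGne
  have key := h2 B (fun _ => G) (fun i => (Finset.exists_mem_ne (hBc i) 0)) (fun _ => hGne)
  have hPS : ((H633R5.FS.PS B).card : ℝ) =
      (((Fintype.piFinset B).image fun b => ∏ i, b i).card : ℝ) := rfl
  rw [hPS] at key
  set N : ℝ := (((Fintype.piFinset B).image fun b => ∏ i, b i).card : ℝ) with hN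
  have hN0 : 0 ≤ N := Nat.cast_nonneg _
  -- each factor
  have hlogG : 0 ≤ Real.log G.card := Real.log_nonneg hG1
  have hlogG3 : Real.log G.card ≤ 3 * Real.log n := by
    have := Real.log_le_log hG0 hG
    rwa [Real.log_pow] at this
  have hfac : ∀ i, ((G.card : ℝ) ^ e * ((3 + Real.log G.card) *
      (((B i + G).card : ℝ) / G.card)) ^ E) ≤ (n : ℝ) ^ (3 * e) * ((n : ℝ) ^ r * (n : ℝ) ^ r) ^ E := by
    intro i
    have g1 : (G.card : ℝ) ^ e ≤ (n : ℝ) ^ (3 * e) := by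
      rw [Real.rpow_mul hn0.le]
      refine Real.rpow_le_rpow hG0.le ?_ he0.le
      calc (G.card : ℝ) ≤ (n : ℝ) ^ 3 := hG
        _ = (n : ℝ) ^ (3 : ℝ) := by norm_cast
    have g2 : ((B i + G).card : ℝ) / G.card ≤ (n : ℝ) ^ r := by
      rw [div_le_iff₀ hG0]
      refine le_trans ?_ hGG
      exact_mod_cast Finset.card_le_card (Finset.add_subset_add_right (hB i).1)
    have g3 : 3 + Real.log G.card ≤ (n : ℝ) ^ r := by linarith
    refine mul_le_mul g1 ?_ (by positivity) (by positivity)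
    refine Real.rpow_le_rpow (by positivity) ?_ hE0.le
    exact mul_le_mul g3 g2 (by positivity) (by positivity)
  have hprod : ∏ i, ((G.card : ℝ) ^ e * ((3 + Real.log G.card) *
      (((B i + G).card : ℝ) / G.card)) ^ E) ≤
      ((n : ℝ) ^ (3 * e) * ((n : ℝ) ^ r * (n : ℝ) ^ r) ^ E) ^ k := by
    calc _ ≤ ∏ _i : Fin k, ((n : ℝ) ^ (3 * e) * ((n : ℝ) ^ r * (n : ℝ) ^ r) ^ E) :=
          Finset.prod_le_prod (fun i _ => by positivity) fun i _ => hfac i
      _ = _ := by rw [Finset.prod_const, Finset.card_univ, Fintype.card_fin]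
  have hB2 : ∏ i, ((B i).card : ℝ) ^ δ ≤ ((n : ℝ) ^ (3 * δ)) ^ k := by
    calc _ ≤ ∏ _i : Fin k, (n : ℝ) ^ (3 * δ) := by
          refine Finset.prod_le_prod (fun i _ => by positivity) fun i _ => ?_
          rw [Real.rpow_mul hn0.le]
          refine Real.rpow_le_rpow (by positivity) ?_ hδ0.le
          calc ((B i).card : ℝ) ≤ G.card := by exact_mod_cast Finset.card_le_card (hB i).1
            _ ≤ (n : ℝ) ^ 3 := hG
            _ = (n : ℝ) ^ (3 : ℝ) := by norm_cast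
      _ = _ := by rw [Finset.prod_const, Finset.card_univ, Fintype.card_fin]
  have hsplit : ∏ i, ((B i).card : ℝ) =
      (∏ i, ((B i).card : ℝ) ^ (1 - δ)) * ∏ i, ((B i).card : ℝ) ^ δ := by
    rw [← Finset.prod_mul_distrib]
    refine Finset.prod_congr rfl fun i _ => ?_
    have : (0 : ℝ) < (B i).card := by exact_mod_cast (by have := hBc i; omega : 0 < (B i).card)
    rw [← Real.rpow_add this, sub_add_cancel, Real.rpow_one]
  have e1 : ((n : ℝ) ^ (3 * e) * ((n : ℝ) ^ r * (n : ℝ) ^ r) ^ E) ^ k * ((n : ℝ) ^ (3 * δ)) ^ k =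
      (n : ℝ) ^ (3 * e * k + (r * E * k + r * E * k) + 3 * δ * k) := by
    rw [← Real.rpow_add hn0, ← Real.rpow_mul hn0.le, ← Real.rpow_add hn0, ← mul_pow,
      ← Real.rpow_add hn0, ← Real.rpow_natCast, ← Real.rpow_mul hn0.le]
    congr 1
    ring
  have e2 : (n : ℝ) ^ (3 * e * k + (r * E * k + r * E * k) + 3 * δ * k) ≤ (n : ℝ) ^ ε := by
    refine Real.rpow_le_rpow_of_exponent_le hnR ?_
    linarith
  calc ∏ i, ((B i).card : ℝ) =
      (∏ i, ((B i).card : ℝ) ^ (1 - δ)) * ∏ i, ((B i).card : ℝ) ^ δ := hsplit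
    _ ≤ (N * ((n : ℝ) ^ (3 * e) * ((n : ℝ) ^ r * (n : ℝ) ^ r) ^ E) ^ k) *
        ((n : ℝ) ^ (3 * δ)) ^ k := by
        refine mul_le_mul (key.trans (mul_le_mul_of_nonneg_left hprod hN0)) hB2
          (Finset.prod_nonneg fun i _ => by positivity) (by positivity)
    _ = N * (((n : ℝ) ^ (3 * e) * ((n : ℝ) ^ r * (n : ℝ) ^ r) ^ E) ^ k *
        ((n : ℝ) ^ (3 * δ)) ^ k) := by ring
    _ ≤ N * (n : ℝ) ^ ε := by
        rw [e1]
        exact mul_le_mul_of_nonneg_left e2 hN0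
    _ = (n : ℝ) ^ ε * N := mul_comm _ _

end Pool.Agent.N966.SPC.Prod

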