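import Pool.Agent.N437.SPC.Stm3

/-!
# SPC/SUBG (helper437): a one-dimensional coset progression in a finite abelian group
-/

set_option autoImplicit false

namespace Pool.Agent.N966.SPC.Subg

open Finset
open scoped Pointwise

variable {Γ : Type} [AddCommGroup Γ] [DecidableEq Γ]

/-- representatives of the cosets -/
lemma reps (L H : AddSubgroup Γ) (hLH : L ≤ H) [Finite H] :
    ∃ T : Finset Γ, T.card * Nat.card L ≤ Nat.card H ∧ ∀ h ∈ H, ∃ t ∈ T, -t + h ∈ L := by
  classical
  set L' := L.addSubgroupOf H with hL'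
  have hf : Finite (H ⧸ L') := inferInstance
  have hF : Fintype (H ⧸ L') := Fintype.ofFinite _
  refine ⟨univ.image fun q : H ⧸ L' => ((Quotient.out q : H) : Γ), ?_, ?_⟩
  · have h1 : (univ.image fun q : H ⧸ L' => ((Quotient.out q : H) : Γ)).card ≤ L'.index := by
      refine card_image_le.trans ?_
      rw [card_univ, ← Nat.card_eq_fintype_card]
      exact le_refl _
    have h2 : Nat.card L' = Nat.card L :=
      Nat.card_congr (AddSubgroup.addSubgroupOfEquivOfLe hLH).toEquiv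
    calc _ ≤ L'.index * Nat.card L := Nat.mul_le_mul_right _ h1
      _ = L'.index * Nat.card L' := by rw [h2]
      _ = Nat.card H := AddSubgroup.index_mul_card L'
  · intro h hh
    refine ⟨_, mem_image_of_mem _ (mem_univ (QuotientAddGroup.mk (⟨h, hh⟩ : H))), ?_⟩
    have h1 : (QuotientAddGroup.mk (Quotient.out (QuotientAddGroup.mk (⟨h, hh⟩ : H) : H ⧸ L')) :
        H ⧸ L') = QuotientAddGroup.mk (⟨h, hh⟩ : H) := QuotientAddGroup.out_eq' _
    rw [QuotientAddGroup.eq] at h1
    exact h1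

/-- a cyclic extension -/
lemma cyc (H' : AddSubgroup Γ) (g : Γ) (hg : g ∉ H')
    (hfo : IsOfFinAddOrder (QuotientAddGroup.mk' H' g)) :
    ∃ (L : AddSubgroup Γ) (m : ℕ), 2 ≤ m ∧ Nat.card L = m * Nat.card H' ∧
      (∀ H : AddSubgroup Γ, H' ≤ H → g ∈ H → L ≤ H) ∧
      ∀ x ∈ L, ∃ j < m, ∃ h ∈ H', x = j • g + h := by
  set gb := QuotientAddGroup.mk' H' g with hgb
  set m := addOrderOf gb with hm
  have hm0 : 0 < m := hfo.addOrderOf_pos
  have hmk : ∀ x : Γ, QuotientAddGroup.mk' H' x = 0 ↔ x ∈ H' := fun x => by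
    rw [QuotientAddGroup.mk'_apply]
    exact QuotientAddGroup.eq_zero_iff x
  have hm1 : m ≠ 1 := by
    intro h
    rw [hm, AddMonoid.addOrderOf_eq_one_iff, hgb, hmk] at h
    exact hg h
  set L : AddSubgroup Γ := (AddSubgroup.zmultiples gb).comap (QuotientAddGroup.mk' H') with hL
  have hsur : ∀ x ∈ L, ∃ j < m, ∃ h ∈ H', x = j • g + h := by
    intro x hx
    have h1 : QuotientAddGroup.mk' H' x ∈ AddSubgroup.zmultiples gb := hx
    classical
    rw [hfo.mem_zmultiples_iff_mem_range_addOrderOf, mem_image] at h1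
    obtain ⟨j, hj, hjx⟩ := h1
    refine ⟨j, mem_range.1 hj, x - j • g, ?_, by abel⟩
    rw [← hmk, map_sub, map_nsmul, ← hgb, ← hjx, sub_self]
  have hmem : ∀ (j : ℕ) (h : Γ), h ∈ H' → j • g + h ∈ L := by
    intro j h hh
    show QuotientAddGroup.mk' H' (j • g + h) ∈ AddSubgroup.zmultiples gb
    rw [map_add, (hmk h).2 hh, add_zero, map_nsmul]
    exact AddSubgroup.nsmul_mem_zmultiples gb j
  refine ⟨L, m, by omega, ?_, ?_, hsur⟩
  · have hb : Function.Bijective
        (fun p : Fin m × H' => (⟨(p.1 : ℕ) • g + p.2, hmem p.1 p.2 p.2.2⟩ : L)) := by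
      constructor
      · rintro ⟨i, h⟩ ⟨j, h'⟩ he
        have h1 : (i : ℕ) • g + (h : Γ) = (j : ℕ) • g + (h' : Γ) := congrArg Subtype.val he
        have h2 : (i : ℕ) • gb = (j : ℕ) • gb := by
          have h3 := congrArg (QuotientAddGroup.mk' H') h1
          rwa [map_add, map_add, (hmk h).2 h.2, (hmk h').2 h'.2, add_zero, add_zero, map_nsmul,
            map_nsmul] at h3
        have h3 : i = j := Fin.ext (nsmul_injOn_Iio_addOrderOf i.2 j.2 h2)
        subst h3
        have h4 : h = h' := Subtype.ext (add_left_cancel h1)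
        rw [h4]
      · rintro ⟨x, hx⟩
        obtain ⟨j, hj, h, hh, he⟩ := hsur x hx
        exact ⟨(⟨j, hj⟩, ⟨h, hh⟩), Subtype.ext he.symm⟩
    rw [← Nat.card_congr (Equiv.ofBijective _ hb), Nat.card_prod, Nat.card_eq_fintype_card,
      Fintype.card_fin]
  · intro H hH hgH x hx
    obtain ⟨j, -, h, hh, rfl⟩ := hsur x hx
    exact H.add_mem (H.nsmul_mem hgH j) (hH hh)

theorem t_SUBG : Pool.Agent.N437.SPC.S_SUBG := by
  intro Γ _ _ H n hfin hn hnH
  classical
  -- a subgroup of maximal order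
  set P : ℕ → Prop := fun c => ∃ K : AddSubgroup Γ, K ≤ H ∧ Nat.card K = c with hP
  have hP1 : P 1 := ⟨⊥, bot_le, by simp⟩
  obtain ⟨H', hH', hc⟩ : P (Nat.findGreatest P n) := Nat.findGreatest_spec hn hP1
  set c := Nat.findGreatest P n with hcdef
  have hcn : c ≤ n := Nat.findGreatest_le n
  have hmax : ∀ K : AddSubgroup Γ, K ≤ H → Nat.card K ≤ n → Nat.card K ≤ c := fun K hK hKn =>
    Nat.le_findGreatest hKn ⟨K, hK, rfl⟩
  have hfin' : Finite H' := Finite.of_injective (AddSubgroup.inclusion hH')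
    (AddSubgroup.inclusion_injective hH')
  have hc0 : 0 < c := by
    rw [← hc]
    exact Nat.card_pos
  have hne : H' ≠ H := by
    rintro rfl
    omega
  obtain ⟨g, hgH, hgH'⟩ : ∃ g ∈ H, g ∉ H' := by
    by_contra hcon
    push Not at hcon
    exact hne (le_antisymm hH' hcon)
  have hfo : IsOfFinAddOrder (QuotientAddGroup.mk' H' g) :=
    ((QuotientAddGroup.mk' H').comp H.subtype).isOfFinAddOrder
      (isOfFinAddOrder_of_finite (⟨g, hgH⟩ : H))
  obtain ⟨L, m, hm2, hLc, hLH, hL⟩ := cyc H' g hgH' hfo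
  have hLH' : L ≤ H := hLH H hH' hgH
  rw [hc] at hLc
  have hLn : n < m * c := by
    by_contra hcon
    push Not at hcon
    have h1 := hmax L hLH' (by rw [hLc]; exact hcon)
    rw [hLc] at h1
    nlinarith
  obtain ⟨T, hT1, hT2⟩ := reps L H hLH'
  rw [hLc] at hT1
  -- the length
  obtain ⟨q, hq⟩ : ∃ q, q = n / c := ⟨_, rfl⟩
  obtain ⟨J, hJ⟩ : ∃ J, J = (q - 1) / 2 := ⟨_, rfl⟩
  have hq1 : 1 ≤ q := by
    rw [hq]
    exact (Nat.one_le_div_iff hc0).2 hcn
  have hJ1 : 2 * J + 1 ≤ q := by omega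
  have hJ2 : q + 1 ≤ 3 * (2 * J + 1) := by omega
  have hqn : q * c ≤ n := by rw [hq]; exact Nat.div_mul_le_self n c
  have hqn2 : n < (q + 1) * c := by
    rw [hq, ← Nat.div_lt_iff_lt_mul hc0]
    exact Nat.lt_succ_self _
  have h2J : (2 * J + 1) * c ≤ n := (Nat.mul_le_mul_right _ hJ1).trans hqn
  have h3J : n ≤ 3 * (2 * J + 1) * c := (hqn2.le).trans (Nat.mul_le_mul_right _ hJ2)
  have hJm : 2 * J + 1 ≤ m := by
    by_contra hcon
    push Not at hcon
    have := Nat.mul_le_mul_right c hcon.le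
    omega
  obtain ⟨k, hk⟩ : ∃ k, k = m / (2 * J + 1) := ⟨_, rfl⟩
  have hk1 : 1 ≤ k := by
    rw [hk]
    exact (Nat.one_le_div_iff (by omega)).2 hJm
  have hk2 : (k + 1) * (2 * J + 1) ≤ 2 * m := by
    have h1 : k * (2 * J + 1) ≤ m := by rw [hk]; exact Nat.div_mul_le_self _ _
    nlinarith
  set SL : Finset Γ := (range (k + 1)).image fun i => ((2 * J + 1) * i + J) • g with hSL
  have hSLc : SL.card ≤ k + 1 := card_image_le.trans (by rw [card_range])
  refine ⟨H', g, J, T + SL, hH', by rw [hc]; exact h2J, ?_, ?_⟩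
  · calc (T + SL).card * n ≤ (T.card * (k + 1)) * (3 * (2 * J + 1) * c) :=
          Nat.mul_le_mul (card_add_le.trans (Nat.mul_le_mul_left _ hSLc)) h3J
      _ = 3 * T.card * c * ((k + 1) * (2 * J + 1)) := by ring
      _ ≤ 3 * T.card * c * (2 * m) := Nat.mul_le_mul_left _ hk2
      _ = 6 * (T.card * (m * c)) := by ring
      _ ≤ 6 * Nat.card H := Nat.mul_le_mul_left _ hT1
  · intro h hh
    obtain ⟨t, ht, htL⟩ := hT2 h hh
    obtain ⟨j, hj, h', hh', he⟩ := hL _ htL
    refine ⟨t + ((2 * J + 1) * (j / (2 * J + 1)) + J) • g, add_mem_add ht (mem_image_of_mem _ ?_),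
      ((j % (2 * J + 1) : ℕ) : ℤ) - J, ?_, h', hh', ?_⟩
    · rw [mem_range, hk]
      exact Nat.lt_succ_of_le (Nat.div_le_div_right hj.le)
    · have := Nat.mod_lt j (by omega : 0 < 2 * J + 1)
      rw [abs_le]
      constructor <;> omega
    · have h1 : h = t + (j • g + h') := by
        rw [← he]
        abel
      have h2 : j • g = ((2 * J + 1) * (j / (2 * J + 1)) + J) • g +
          (((j % (2 * J + 1) : ℕ) : ℤ) - J) • g := by
        have h3 := Nat.div_add_mod j (2 * J + 1)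
        rw [sub_smul, natCast_zsmul, natCast_zsmul, add_smul]
        conv_lhs => rw [← h3, add_smul]
        abel
      rw [h1, h2]
      abel

end Pool.Agent.N966.SPC.Subg

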